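import Mathlib
import Pool.Agent.Results.MP_af317d_an.RenormNonRNP

/-!
# MP_af317d_an, Q1: renormings of spaces without the RNP, with universal constants and an explicit
# open set of operators without norm-attaining elements
-/

set_option autoImplicit false
set_option maxSynthPendingDepth 3

namespace Pool.Agent.Results.MP_af317d_an.RenormTransvection

open Pool.Agent.Results.MP_af317d_an.RenormNonRNP Pool.Agent.Helper902.Ren

universe u v

/-- Let `X` be a Banach space (real or complex) that fails the Radon-Nikodym property. Then there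
are a Banach space `Y` and an isomorphism `e : X → Y` with `‖e x‖ ≤ 5 ‖x‖` and `‖x‖ ≤ 2 ‖e x‖`
(so `Y` is `X` with an equivalent norm, at distance at most `10`, whatever `X` is), and a rank one
operator `N = f ⊗ w` on `Y` with `N² = 0` (`f w = 0`), such that a whole ball around the invertible
operator `1 + N` contains no norm-attaining operator. In particular the norm-attaining operators are
not dense in the bounded operators on `Y`. -/
theorem result {𝕜 : Type v} [RCLike 𝕜] {X : Type u} [NormedAddCommGroup X] [NormedSpace 𝕜 X]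
    [NormedSpace ℝ X] [IsScalarTower ℝ 𝕜 X] [CompleteSpace X] (hX : ¬ HasRNP X) :
    ∃ (Y : Type u) (_ : NormedAddCommGroup Y) (_ : NormedSpace 𝕜 Y) (_ : CompleteSpace Y)
      (e : X ≃L[𝕜] Y),
      (∀ x, ‖e x‖ ≤ 5 * ‖x‖ ∧ ‖x‖ ≤ 2 * ‖e x‖) ∧
      (∃ (f : Y →L[𝕜] 𝕜) (w : Y), f w = 0 ∧
        ∃ δ : ℝ, 0 < δ ∧ ∀ S : Y →L[𝕜] Y,
          ‖S - (ContinuousLinearMap.id 𝕜 Y + f.smulRight w)‖ < δ → S ∉ NA 𝕜 Y) ∧
      ¬ Dense (NA 𝕜 Y) := by
  obtain ⟨D, ε, hε, hWn, hWd, hC⟩ := exists_data (𝕜 := 𝕜) hX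
  have hNe : ∀ x, D.N ((eqv D).symm x) = ‖x‖ := fun x => by
    rw [← eqv_norm, ContinuousLinearEquiv.apply_symm_apply]
  set TY : RS D →L[𝕜] RS D := ((eqv D : X →L[𝕜] RS D).comp D.T).comp ((eqv D).symm : RS D →L[𝕜] X) with hTY
  set δ : ℝ := min 1 (ε / 400000) with hδ
  have hδp : 0 < δ := by positivity
  have key : ∀ SY : RS D →L[𝕜] RS D, ‖SY - TY‖ < δ → SY ∉ NA 𝕜 (RS D) := by
    rintro SY hSY ⟨y, hy, hyS⟩
    obtain ⟨FY, hF1, hF2⟩ := exists_dual_vector'' 𝕜 (SY y)
    refine D.no_NA (ε := ε) (δ := δ) (τ := ‖SY‖) (S := (((eqv D).symm : RS D →L[𝕜] X).comp SY).comp (eqv D : X →L[𝕜] RS D))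
      (b := (eqv D).symm y) (F := FY.comp (eqv D : X →L[𝕜] RS D)) hδp.le (min_le_left _ _) ?_ ?_ ?_ ?_ ?_ hWn hε hδp ?_ hWd hC
    · intro x
      have h1 : (((eqv D).symm : RS D →L[𝕜] X).comp SY).comp (eqv D : X →L[𝕜] RS D) x - D.T x
          = (eqv D).symm ((SY - TY) (eqv D x)) := by
        rw [sub_apply, map_sub, hTY]
        simp
      rw [h1, hNe, ← eqv_norm]
      refine ((SY - TY).le_opNorm _).trans ?_
      exact mul_le_mul_of_nonneg_right hSY.le (norm_nonneg _)
    · intro x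
      change D.N ((eqv D).symm (SY (eqv D x))) ≤ _
      rw [hNe, ← eqv_norm]
      exact SY.le_opNorm _
    · rw [hNe, hy]
    · intro x
      change ‖FY (eqv D x)‖ ≤ _
      rw [← eqv_norm]
      refine (FY.le_opNorm _).trans ?_
      exact mul_le_of_le_one_left (norm_nonneg _) hF1
    · change FY (eqv D ((eqv D).symm (SY (eqv D ((eqv D).symm y))))) = _
      rw [ContinuousLinearEquiv.apply_symm_apply, ContinuousLinearEquiv.apply_symm_apply, hF2, hyS]
    · have := min_le_right 1 (ε / 400000)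
      linarith
  have hform : TY = ContinuousLinearMap.id 𝕜 (RS D) +
      (D.g.comp ((eqv D).symm : RS D →L[𝕜] X)).smulRight (eqv D D.u) := by
    ext1 x
    rw [hTY]
    change eqv D (D.T ((eqv D).symm x)) = x + D.g ((eqv D).symm x) • eqv D D.u
    rw [D.T_apply, map_add, map_smul, ContinuousLinearEquiv.apply_symm_apply]
  refine ⟨RS D, inferInstance, inferInstance, ?_, eqv D, ?_, ?_, ?_⟩
  · exact (eqv D).isUniformEmbedding.completeSpace_congr (eqv D).surjective |>.1 inferInstance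
  · intro x
    rw [eqv_norm]
    exact ⟨D.N_le x, D.norm_le x⟩
  · refine ⟨D.g.comp ((eqv D).symm : RS D →L[𝕜] X), eqv D D.u, ?_, δ, hδp, ?_⟩
    · change D.g ((eqv D).symm (eqv D D.u)) = 0
      rw [ContinuousLinearEquiv.symm_apply_apply, D.gu]
    · rw [← hform]
      exact key
  · intro hdense
    obtain ⟨SY, hSY, hd⟩ := Metric.dense_iff.1 hdense TY δ hδp
    rw [Metric.mem_ball, dist_eq_norm] at hSY
    exact key SY hSY hd

end Pool.Agent.Results.MP_af317d_an.RenormTransvection
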